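import Mathlib
import Pool.Agent.H170Z.Bruhat.ZDefs
import Pool.Agent.H170Z.Bruhat.ZBridge

set_option autoImplicit false

namespace Pool.Agent.Results.MP_92a1a0_co.ATypeA

open Pool.Agent.H170Z.BruhatA

/-- Delanoy's descent conjecture in type `A_n` for every `n`: for every zircon `[u, w]` with
`u < w` in the symmetric group `S_(n+1)` there is a left descent `s` of `w` with `s w ≱ u` or
`s u > u`. -/
theorem result (n : ℕ) (u w : Equiv.Perm (Fin (n + 1))) (huw : BLt u w) (hz : IsZircon u w) :
    ∃ i : Fin n, BLt (simple i * w) w ∧ (¬ BLe u (simple i * w) ∨ BLt u (simple i * u)) :=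
  Pool.Agent.H170Z.Bruhat.zircon_left u w huw hz

end Pool.Agent.Results.MP_92a1a0_co.ATypeA
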